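import Mathlib
import Pool.Agent.Q167.VC.Stm

/-!
Project VC, job GAU: modulus of the Gauss sums.
-/

set_option autoImplicit false

open Finset

namespace Pool.Agent.Q64.VC

open Pool.Agent.Q167.VC Complex

/-- periodic sums -/
theorem sum_shift {M : Type*} [AddCommGroup M] {n : ℕ} {f : ℤ → M} (hf : ∀ y, f (y + n) = f y) (c : ℕ) :
    ∑ k ∈ range n, f ((k : ℤ) + c) = ∑ k ∈ range n, f k := by
  induction c with
  | zero => simp
  | succ c ih =>
    rw [← ih]
    have h1 := Finset.sum_range_succ (fun k : ℕ => f ((k : ℤ) + c)) n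
    have h2 := Finset.sum_range_succ' (fun k : ℕ => f ((k : ℤ) + c)) n
    rw [h1] at h2
    have h3 : f ((n : ℤ) + c) = f (((0 : ℕ) : ℤ) + c) := by
      rw [add_comm, hf]
      simp
    rw [h3] at h2
    have h4 := add_right_cancel h2
    rw [h4]
    refine Finset.sum_congr rfl fun k _ => ?_
    congr 1
    push_cast
    ring

theorem sum_blocks {n : ℕ} {f : ℤ → ℝ} (hf : ∀ y, f (y + n) = f y) (a : ℕ) :
    ∑ k ∈ range (a * n), f k = a * ∑ k ∈ range n, f k := by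
  induction a with
  | zero => simp
  | succ a ih =>
    rw [Nat.succ_mul, Finset.sum_range_add, ih]
    have h1 : ∀ (a : ℕ) (y : ℤ), f (y + (a * n : ℕ)) = f y := by
      intro a
      induction a with
      | zero => intro y; simp
      | succ a ih =>
        intro y
        have : y + ((a + 1) * n : ℕ) = (y + (a * n : ℕ)) + n := by push_cast; ring
        rw [this, hf, ih]
    have h2 : ∑ x ∈ range n, f ((a * n + x : ℕ) : ℤ) = ∑ k ∈ range n, f k := by
      refine Finset.sum_congr rfl fun k _ => ?_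
      rw [← h1 a k]
      congr 1
      push_cast
      ring
    rw [h2]
    push_cast
    ring

theorem orth {n : ℕ} {ζ : ℂ} (hζ : IsPrimitiveRoot ζ n) (d : ℤ) (hd : ¬ (n : ℤ) ∣ d) :
    ∑ m ∈ range n, (ζ ^ d) ^ m = 0 := by
  have h1 : ζ ^ d ≠ 1 := fun h => hd ((hζ.zpow_eq_one_iff_dvd d).1 h)
  have h2 : (ζ ^ d) ^ n = 1 := by
    rw [← zpow_natCast, ← zpow_mul, mul_comm, zpow_mul, zpow_natCast, hζ.pow_eq_one, one_zpow]
  have h3 := geom_sum_mul (ζ ^ d) n
  rw [h2, sub_self] at h3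
  exact (mul_eq_zero.1 h3).resolve_right (sub_ne_zero.2 h1)

/-- Parseval -/
theorem parseval {n : ℕ} {ζ : ℂ} (hζ : IsPrimitiveRoot ζ n) (hn : 0 < n) (a : ℕ → ℂ) :
    ∑ m ∈ range n, ‖∑ y ∈ range n, a y * ζ ^ (m * y)‖ ^ 2 = n * ∑ y ∈ range n, ‖a y‖ ^ 2 := by
  have hz : ‖ζ‖ = 1 := hζ.norm'_eq_one hn.ne'
  have hz0 : ζ ≠ 0 := by
    intro h
    rw [h, norm_zero] at hz
    exact zero_ne_one hz
  have hconj : ∀ k : ℕ, (starRingEnd ℂ) (ζ ^ k) = (ζ ^ k)⁻¹ := by
    intro k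
    rw [map_pow, ← inv_pow]
    congr 1
    rw [Complex.inv_def, Complex.normSq_eq_norm_sq, hz]
    simp
  have key : ((∑ m ∈ range n, ‖∑ y ∈ range n, a y * ζ ^ (m * y)‖ ^ 2 : ℝ) : ℂ) =
      ((n * ∑ y ∈ range n, ‖a y‖ ^ 2 : ℝ) : ℂ) := by
    push_cast
    have h1 : ∀ m ∈ range n, (‖∑ y ∈ range n, a y * ζ ^ (m * y)‖ : ℂ) ^ 2 =
        ∑ y ∈ range n, ∑ y' ∈ range n, (a y * (starRingEnd ℂ) (a y')) *
          (ζ ^ ((y : ℤ) - y')) ^ m := by
      intro m _
      rw [← Complex.mul_conj', map_sum, Finset.sum_mul_sum]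
      refine Finset.sum_congr rfl fun y _ => Finset.sum_congr rfl fun y' _ => ?_
      rw [map_mul, hconj]
      have h2 : (ζ ^ ((y : ℤ) - y')) ^ m = ζ ^ (m * y) * (ζ ^ (m * y'))⁻¹ := by
        rw [← zpow_natCast, ← zpow_mul, ← zpow_natCast, ← zpow_natCast, ← zpow_neg, ← zpow_add₀ hz0]
        congr 1
        push_cast
        ring
      rw [h2]
      ring
    rw [Finset.sum_congr rfl h1, Finset.sum_comm]
    rw [Finset.mul_sum]
    refine Finset.sum_congr rfl fun y hy => ?_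
    rw [Finset.sum_comm]
    rw [Finset.sum_eq_single y]
    · rw [sub_self, zpow_zero]
      simp only [one_pow, mul_one, Finset.sum_const, Finset.card_range, nsmul_eq_mul]
      rw [Complex.mul_conj']
    · intro y' hy' hne
      rw [← Finset.mul_sum, orth hζ, mul_zero]
      intro hdvd
      obtain ⟨c, hc⟩ := hdvd
      have e1 := Finset.mem_range.1 hy
      have e2 := Finset.mem_range.1 hy'
      have e3 : ((y : ℤ) - y').natAbs < n := by omega
      have e4 : (y : ℤ) - y' ≠ 0 := by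
        intro h
        apply hne
        omega
      have e6 : n ∣ ((y : ℤ) - y').natAbs := Int.natCast_dvd.1 ⟨c, hc⟩
      have e7 := Nat.le_of_dvd (Int.natAbs_pos.2 e4) e6
      omega
    · intro h
      exact absurd hy h
  exact_mod_cast key

theorem rt_zpow (N : ℕ) (z : ℤ) : rt N ^ z = Complex.exp (Real.pi * I * z / N) := by
  unfold rt
  rw [← Complex.exp_int_mul]
  congr 1
  ring

theorem rt_ne (N : ℕ) : rt N ≠ 0 := Complex.exp_ne_zero _

theorem rt_norm (N : ℕ) : ‖rt N‖ = 1 := by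
  unfold rt
  have : (Real.pi * I / N : ℂ) = ((Real.pi / N : ℝ) : ℂ) * I := by push_cast; ring
  rw [this, Complex.norm_exp_ofReal_mul_I]

/-- `x^N = -1` -/
theorem rt_pow {N : ℕ} (hN : 1 ≤ N) (z : ℤ) : rt N ^ (2 * N * z : ℤ) = 1 := by
  rw [rt_zpow, Complex.exp_eq_one_iff]
  refine ⟨z, ?_⟩
  have : (N : ℂ) ≠ 0 := by exact_mod_cast (by omega : N ≠ 0)
  push_cast
  field_simp

theorem rt_odd {N : ℕ} (hN : 1 ≤ N) (z : ℤ) : rt N ^ (N * (2 * z + 1) : ℤ) = -1 := by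
  have h1 : (N * (2 * z + 1) : ℤ) = 2 * N * z + N := by ring
  rw [h1, zpow_add₀ (rt_ne N), rt_pow hN, one_mul, rt_zpow]
  have : (N : ℂ) ≠ 0 := by exact_mod_cast (by omega : N ≠ 0)
  have h2 : (Real.pi * I * ((N : ℤ) : ℂ) / N : ℂ) = Real.pi * I := by
    push_cast
    field_simp
  rw [h2, Complex.exp_pi_mul_I]

/-- the summand -/
noncomputable def tm (N p : ℕ) (y k : ℤ) : ℂ := rt N ^ (2 * (p : ℤ) * (k * (k + 1)) + y * (2 * k + 1))

theorem tm_per {N : ℕ} (hN : 1 ≤ N) (p : ℕ) (y k : ℤ) : tm N p y (k + N) = tm N p y k := by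
  unfold tm
  have h1 : 2 * (p : ℤ) * ((k + N) * (k + N + 1)) + y * (2 * (k + N) + 1) =
      2 * (p : ℤ) * (k * (k + 1)) + y * (2 * k + 1) + 2 * N * (p * (2 * k + N + 1) + y) := by ring
  rw [h1, zpow_add₀ (rt_ne N), rt_pow hN, mul_one]

theorem GZ_eq (N p : ℕ) (y : ℤ) : GZ N p y = ∑ k ∈ range N, tm N p y k := rfl

theorem GZ_add_two {N : ℕ} (hN : 1 ≤ N) (p : ℕ) (y : ℤ) :
    GZ N p (y + 2 * p) = rt N ^ (-2 * (y + p)) * GZ N p y := by
  rw [GZ_eq, GZ_eq, ← sum_shift (tm_per hN p y) 1, Finset.mul_sum]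
  refine Finset.sum_congr rfl fun k _ => ?_
  unfold tm
  rw [← zpow_add₀ (rt_ne N)]
  congr 1
  push_cast
  ring

theorem GZ_add_N {N : ℕ} (hN : 1 ≤ N) (p : ℕ) (y : ℤ) : GZ N p (y + N) = -GZ N p y := by
  rw [GZ_eq, GZ_eq, ← Finset.sum_neg_distrib]
  refine Finset.sum_congr rfl fun k _ => ?_
  unfold tm
  have h1 : 2 * (p : ℤ) * ((k : ℤ) * (k + 1)) + (y + N) * (2 * k + 1) =
      (2 * (p : ℤ) * ((k : ℤ) * (k + 1)) + y * (2 * k + 1)) + N * (2 * k + 1) := by ring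
  rw [h1, zpow_add₀ (rt_ne N), rt_odd hN]
  ring

/-- the corrected Gauss sum -/
noncomputable def Gp (N p : ℕ) (y : ℤ) : ℂ :=
  GZ N p y * Complex.exp (2 * Real.pi * I * ((y : ℂ) ^ 2 / (4 * p * N)))

theorem Gp_norm (N p : ℕ) (y : ℤ) : ‖Gp N p y‖ = ‖GZ N p y‖ := by
  unfold Gp
  have : (2 * Real.pi * I * ((y : ℂ) ^ 2 / (4 * p * N)) : ℂ) =
      ((2 * Real.pi * ((y : ℝ) ^ 2 / (4 * p * N)) : ℝ) : ℂ) * I := by push_cast; ring
  rw [norm_mul, this, Complex.norm_exp_ofReal_mul_I, mul_one]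

theorem Gp_add_two {N p : ℕ} (hN : 1 ≤ N) (hp : 1 ≤ p) (y : ℤ) : Gp N p (y + 2 * p) = Gp N p y := by
  have hN0 : (N : ℂ) ≠ 0 := by exact_mod_cast (by omega : N ≠ 0)
  have hp0 : (p : ℂ) ≠ 0 := by exact_mod_cast (by omega : p ≠ 0)
  unfold Gp
  rw [GZ_add_two hN, rt_zpow, mul_comm (Complex.exp _) (GZ N p y), mul_assoc, ← Complex.exp_add]
  congr 2
  push_cast
  field_simp
  ring

theorem Gp_add_N {N p : ℕ} (hN : 1 ≤ N) (hp : 1 ≤ p) (y : ℤ) : Gp N p (y + N) =
    -(Complex.exp (2 * Real.pi * I * ((y : ℂ) / (2 * p) + N / (4 * p))) * Gp N p y) := by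
  have hN0 : (N : ℂ) ≠ 0 := by exact_mod_cast (by omega : N ≠ 0)
  have hp0 : (p : ℂ) ≠ 0 := by exact_mod_cast (by omega : p ≠ 0)
  unfold Gp
  have e1 : Complex.exp (2 * Real.pi * I * ((y : ℂ) / (2 * p) + N / (4 * p))) *
      (GZ N p y * Complex.exp (2 * Real.pi * I * ((y : ℂ) ^ 2 / (4 * p * N)))) =
      GZ N p y * (Complex.exp (2 * Real.pi * I * ((y : ℂ) / (2 * p) + N / (4 * p))) *
        Complex.exp (2 * Real.pi * I * ((y : ℂ) ^ 2 / (4 * p * N)))) := by ring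
  rw [GZ_add_N hN, e1, ← Complex.exp_add, neg_mul]
  congr 3
  push_cast
  field_simp
  ring

/-- the mean square -/
theorem sum_GZ_sq {N : ℕ} (hN : 1 ≤ N) (p : ℕ) :
    ∑ y ∈ range N, ‖GZ N p y‖ ^ 2 = (N : ℝ) ^ 2 := by
  have hζ := Complex.isPrimitiveRoot_exp N (by omega)
  have h0 : Complex.exp (2 * Real.pi * I / N) = rt N ^ (2 : ℤ) := by
    rw [rt_zpow]
    congr 1
    push_cast
    ring
  rw [h0] at hζ
  have h1 := parseval hζ (by omega) fun k => tm N p 0 k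
  have h2 : ∀ y ∈ range N, ‖∑ k ∈ range N, tm N p 0 k * (rt N ^ (2 : ℤ)) ^ (y * k)‖ ^ 2 =
      ‖GZ N p y‖ ^ 2 := by
    intro y _
    congr 1
    rw [GZ_eq]
    have h3 : ∑ k ∈ range N, tm N p y k =
        rt N ^ (y : ℤ) * ∑ k ∈ range N, tm N p 0 k * (rt N ^ (2 : ℤ)) ^ (y * k) := by
      rw [Finset.mul_sum]
      refine Finset.sum_congr rfl fun k _ => ?_
      unfold tm
      rw [← zpow_natCast, ← zpow_mul, ← zpow_add₀ (rt_ne N), ← zpow_add₀ (rt_ne N)]
      congr 1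
      push_cast
      ring
    rw [h3, norm_mul, norm_zpow, rt_norm, one_zpow, one_mul]
  rw [Finset.sum_congr rfl h2] at h1
  rw [h1]
  have h4 : ∀ k ∈ range N, ‖tm N p 0 k‖ ^ 2 = 1 := by
    intro k _
    unfold tm
    rw [norm_zpow, rt_norm, one_zpow, one_pow]
  rw [Finset.sum_congr rfl h4, Finset.sum_const, Finset.card_range, nsmul_eq_mul, mul_one, sq]

theorem sum_Gp_sq {N p : ℕ} (hN : 1 ≤ N) (hp : 1 ≤ p) :
    ∑ y ∈ range (2 * p), ‖Gp N p y‖ ^ 2 = 2 * p * N := by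
  let f : ℤ → ℝ := fun y => ‖Gp N p y‖ ^ 2
  have h1 : ∀ y, f (y + (2 * p : ℕ)) = f y := by
    intro y
    simp only [f]
    push_cast
    rw [Gp_add_two hN hp]
  have h2 : ∀ y, f (y + N) = f y := by
    intro y
    simp only [f]
    rw [Gp_norm, Gp_norm, GZ_add_N hN, norm_neg]
  have h3 := sum_blocks h1 N
  have h4 := sum_blocks h2 (2 * p)
  rw [mul_comm N (2 * p), h4] at h3
  have h5 : ∑ y ∈ range N, f y = (N : ℝ) ^ 2 := by
    rw [← sum_GZ_sq hN p]
    refine Finset.sum_congr rfl fun y _ => ?_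
    simp only [f]
    rw [Gp_norm]
  rw [h5] at h3
  have hN0 : (N : ℝ) ≠ 0 := by exact_mod_cast (by omega : N ≠ 0)
  have h6 : (N : ℝ) * ∑ y ∈ range (2 * p), f y = N * (2 * p * N) := by
    rw [← h3]
    push_cast
    ring
  exact mul_left_cancel₀ hN0 h6

/-- the component of the Gauss sum -/
noncomputable def gm (N p : ℕ) (m : ℤ) : ℂ :=
  ∑ y ∈ range (2 * p), Gp N p y * Complex.exp (2 * Real.pi * I * (-(m * y) / (2 * p)))

theorem gm_succ {N p : ℕ} (hN : 1 ≤ N) (hp : 1 ≤ p) (m : ℤ) : ‖gm N p (m + 1)‖ = ‖gm N p m‖ := by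
  have hp0 : (p : ℂ) ≠ 0 := by exact_mod_cast (by omega : p ≠ 0)
  let f : ℤ → ℂ := fun y =>
    Gp N p y * Complex.exp (2 * Real.pi * I * (-((m + 1 : ℤ) * y) / (2 * p)))
  have hf : ∀ y, f (y + (2 * p : ℕ)) = f y := by
    intro y
    simp only [f]
    push_cast
    rw [Gp_add_two hN hp]
    congr 1
    rw [Complex.exp_eq_exp_iff_exists_int]
    refine ⟨-(m + 1), ?_⟩
    push_cast
    field_simp
    ring
  have h1 := sum_shift hf N
  have h2 : gm N p (m + 1) = ∑ y ∈ range (2 * p), f y := by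
    unfold gm
    refine Finset.sum_congr rfl fun y _ => ?_
    simp only [f]
    push_cast
    rfl
  rw [h2, ← h1]
  have h3 : ∑ y ∈ range (2 * p), f ((y : ℤ) + N) =
      -Complex.exp (2 * Real.pi * I * (N / (4 * p) - (m + 1) * N / (2 * p))) * gm N p m := by
    unfold gm
    rw [Finset.mul_sum]
    refine Finset.sum_congr rfl fun y _ => ?_
    simp only [f]
    rw [Gp_add_N hN hp, neg_mul, neg_mul, mul_assoc]
    have e1 : Complex.exp (2 * Real.pi * I * (((y : ℤ) : ℂ) / (2 * p) + N / (4 * p))) *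
        (Gp N p y * Complex.exp (2 * Real.pi * I * (-((m + 1 : ℤ) * (((y : ℤ) + N : ℤ) : ℂ)) / (2 * p)))) =
        Gp N p y * (Complex.exp (2 * Real.pi * I * (((y : ℤ) : ℂ) / (2 * p) + N / (4 * p))) *
          Complex.exp (2 * Real.pi * I * (-((m + 1 : ℤ) * (((y : ℤ) + N : ℤ) : ℂ)) / (2 * p)))) := by
      ring
    have e2 : Complex.exp (2 * Real.pi * I * (N / (4 * p) - (m + 1) * N / (2 * p))) *
        (Gp N p y * Complex.exp (2 * Real.pi * I * (-(m * y) / (2 * p)))) =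
        Gp N p y * (Complex.exp (2 * Real.pi * I * (N / (4 * p) - (m + 1) * N / (2 * p))) *
          Complex.exp (2 * Real.pi * I * (-(m * y) / (2 * p)))) := by
      ring
    rw [e1, e2, ← Complex.exp_add, ← Complex.exp_add]
    congr 3
    push_cast
    field_simp
    ring
  rw [h3, norm_mul, norm_neg]
  have e3 : (2 * Real.pi * I * ((N : ℂ) / (4 * p) - (m + 1) * N / (2 * p)) : ℂ) =
      ((2 * Real.pi * ((N : ℝ) / (4 * p) - (m + 1) * N / (2 * p)) : ℝ) : ℂ) * I := by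
    push_cast
    ring
  rw [e3, Complex.norm_exp_ofReal_mul_I, one_mul]

theorem gm_const {N p : ℕ} (hN : 1 ≤ N) (hp : 1 ≤ p) (m : ℤ) : ‖gm N p m‖ = ‖gm N p 0‖ := by
  induction m using Int.induction_on with
  | zero => rfl
  | succ i ih => rw [gm_succ hN hp, ih]
  | pred i ih =>
    rw [← ih, ← gm_succ hN hp (-i - 1)]
    congr 2
    ring

theorem gm_sq {N p : ℕ} (hN : 1 ≤ N) (hp : 1 ≤ p) (m : ℤ) : ‖gm N p m‖ ^ 2 = 2 * p * N := by
  have hp0 : (p : ℂ) ≠ 0 := by exact_mod_cast (by omega : p ≠ 0)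
  have hζ := (Complex.isPrimitiveRoot_exp (2 * p) (by omega)).inv
  have h1 := parseval hζ (by omega) fun y => Gp N p y
  have h2 : ∀ m ∈ range (2 * p), ‖∑ y ∈ range (2 * p), Gp N p y *
      ((Complex.exp (2 * Real.pi * I / (2 * p : ℕ)))⁻¹) ^ (m * y)‖ ^ 2 = ‖gm N p 0‖ ^ 2 := by
    intro m _
    rw [← gm_const hN hp m]
    unfold gm
    congr 2
    refine Finset.sum_congr rfl fun y _ => ?_
    congr 1
    rw [← Complex.exp_neg, ← Complex.exp_nat_mul]
    congr 1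
    push_cast
    field_simp
  rw [Finset.sum_congr rfl h2, Finset.sum_const, Finset.card_range, nsmul_eq_mul,
    sum_Gp_sq hN hp] at h1
  rw [gm_const hN hp]
  have : ((2 * p : ℕ) : ℝ) ≠ 0 := by exact_mod_cast (by omega : 2 * p ≠ 0)
  exact mul_left_cancel₀ this h1

/-- **GAU.** -/
theorem gau : S_gauss := by
  intro N p hN hp
  refine ⟨fun m => ?_, fun y => ?_⟩
  · rw [← gm_sq hN hp m]
    congr 2
    unfold gm
    refine Finset.sum_congr rfl fun y _ => ?_
    unfold Gp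
    rw [mul_assoc (GZ N p y), ← Complex.exp_add]
    congr 2
    push_cast
    ring
  · rw [← Gp_norm N p y, ← sum_Gp_sq hN hp]
    have hper : ∀ (a : ℕ) (z : ℤ), Gp N p (z + a * (2 * p)) = Gp N p z := by
      intro a
      induction a with
      | zero => intro z; simp
      | succ a ih =>
        intro z
        rw [← ih z, ← Gp_add_two hN hp (z + a * (2 * p))]
        congr 1
        push_cast
        ring
    have hper' : ∀ (a z : ℤ), Gp N p (z + a * (2 * p)) = Gp N p z := by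
      intro a z
      rcases le_total 0 a with h | h
      · obtain ⟨b, rfl⟩ := Int.eq_ofNat_of_zero_le h
        exact hper b z
      · obtain ⟨b, hb⟩ := Int.eq_ofNat_of_zero_le (neg_nonneg.2 h)
        have ha : a = -(b : ℤ) := by omega
        rw [ha, ← hper b (z + -(b : ℤ) * (2 * p))]
        congr 1
        ring
    have h2p : (0 : ℤ) < 2 * p := by omega
    have h1 : Gp N p y = Gp N p (y % (2 * p)) := by
      rw [← hper' (y / (2 * p)) (y % (2 * p))]
      congr 1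
      rw [mul_comm (y / (2 * p))]
      exact (Int.emod_add_mul_ediv y (2 * p)).symm
    obtain ⟨r, hr⟩ := Int.eq_ofNat_of_zero_le (Int.emod_nonneg y h2p.ne')
    have h3 := Int.emod_lt_of_pos y h2p
    rw [h1, hr]
    have h4 : r ∈ range (2 * p) := by
      rw [Finset.mem_range]
      omega
    exact Finset.single_le_sum (f := fun y : ℕ => ‖Gp N p y‖ ^ 2) (fun _ _ => by positivity) h4

end Pool.Agent.Q64.VC
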