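import Mathlib
import Pool.Agent.Q167.VC.Stm
import Pool.Agent.Q64.VC.Gau

/-!
Project VC, job ABL: summation by parts.
-/

set_option autoImplicit false

open Finset

namespace Pool.Agent.Q64.VC

open Pool.Agent.Q167.VC Complex

/-! ### The function `y cot(π y)` -/

/-- `y cot (π y)`, with the value `1/π` at `0` -/
noncomputable def Gc (y : ℝ) : ℝ := Real.cos (Real.pi * y) / (Real.pi * Real.sinc (Real.pi * y))

theorem Gc_neg (y : ℝ) : Gc (-y) = Gc y := by
  unfold Gc
  rw [mul_neg, Real.cos_neg, Real.sinc_neg]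

theorem Gc_eq {y : ℝ} (hy : y ≠ 0) :
    Gc y = y * Real.cos (Real.pi * y) / Real.sin (Real.pi * y) := by
  unfold Gc
  have hpi := Real.pi_ne_zero
  rw [Real.sinc_of_ne_zero (mul_ne_zero hpi hy)]
  by_cases hs : Real.sin (Real.pi * y) = 0
  · rw [hs]
    simp
  · field_simp

theorem sin_pos_of {y : ℝ} (h0 : 0 < y) (h1 : y < 1) : 0 < Real.sin (Real.pi * y) :=
  Real.sin_pos_of_pos_of_lt_pi (by positivity) (by nlinarith [Real.pi_pos])

theorem sinc_pos_of {y : ℝ} (h0 : 0 ≤ y) (h1 : y < 1) : 0 < Real.sinc (Real.pi * y) := by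
  rcases h0.eq_or_lt with rfl | h
  · simp
  · rw [Real.sinc_of_ne_zero (by positivity)]
    exact div_pos (sin_pos_of h h1) (by positivity)

theorem Gc_anti {a : ℝ} (ha : a < 1) : AntitoneOn Gc (Set.Icc 0 a) := by
  apply antitoneOn_of_deriv_nonpos (convex_Icc 0 a)
  · apply ContinuousOn.div
    · fun_prop
    · have := Real.continuous_sinc
      fun_prop
    · intro y hy
      exact mul_ne_zero Real.pi_ne_zero (sinc_pos_of hy.1 (hy.2.trans_lt ha)).ne'
  · rw [interior_Icc]
    intro y hy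
    have hs := (sin_pos_of hy.1 (hy.2.trans ha)).ne'
    have h1 : Gc =ᶠ[nhds y] fun y => y * Real.cos (Real.pi * y) / Real.sin (Real.pi * y) := by
      filter_upwards [isOpen_ne.mem_nhds hy.1.ne'] with z hz
      exact Gc_eq hz
    refine (DifferentiableAt.congr_of_eventuallyEq ?_ h1).differentiableWithinAt
    have d1 : DifferentiableAt ℝ (fun y : ℝ => y * Real.cos (Real.pi * y)) y := by fun_prop
    have d2 : DifferentiableAt ℝ (fun y : ℝ => Real.sin (Real.pi * y)) y := by fun_prop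
    exact d1.div d2 hs
  · rw [interior_Icc]
    intro y hy
    have hs := sin_pos_of hy.1 (hy.2.trans ha)
    have h1 : Gc =ᶠ[nhds y] fun y => y * Real.cos (Real.pi * y) / Real.sin (Real.pi * y) := by
      filter_upwards [isOpen_ne.mem_nhds hy.1.ne'] with z hz
      exact Gc_eq hz
    rw [h1.deriv_eq]
    have h2 : HasDerivAt (fun y : ℝ => Real.pi * y) Real.pi y := by
      simpa using (hasDerivAt_id y).const_mul Real.pi
    have h3 := ((hasDerivAt_id y).mul h2.cos).div h2.sin hs.ne'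
    have h4 : deriv (fun y => y * Real.cos (Real.pi * y) / Real.sin (Real.pi * y)) y =
        (Real.sin (Real.pi * y) * Real.cos (Real.pi * y) - Real.pi * y) /
          Real.sin (Real.pi * y) ^ 2 := by
      have h5 := h3.deriv
      simp only [id] at h5
      have h6 : (fun y => y * Real.cos (Real.pi * y) / Real.sin (Real.pi * y)) =
          ((fun y : ℝ => y) * (fun y => Real.cos (Real.pi * y))) / fun y => Real.sin (Real.pi * y) := by
        funext y
        rfl
      rw [h6]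
      refine Eq.trans h5 ?_
      congr 1
      have := Real.sin_sq_add_cos_sq (Real.pi * y)
      simp only [Pi.mul_apply, id]
      linear_combination (-(Real.pi * y)) * this
    rw [h4]
    apply div_nonpos_of_nonpos_of_nonneg _ (by positivity)
    have e1 : Real.sin (Real.pi * y) * Real.cos (Real.pi * y) ≤ Real.sin (Real.pi * y) := by
      have := Real.cos_le_one (Real.pi * y)
      nlinarith
    have e2 := Real.sin_le (x := Real.pi * y) (by have := Real.pi_pos; have := hy.1; positivity)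
    linarith

/-- the monotone function which dominates the variation -/
noncomputable def gg (y : ℝ) : ℝ := if 0 ≤ y then Gc 0 - Gc y else Gc y - Gc 0

theorem Gc_le {a y : ℝ} (ha : a < 1) (h1 : -a ≤ y) (h2 : y ≤ a) : Gc a ≤ Gc y ∧ Gc y ≤ Gc 0 := by
  have ha0 : 0 ≤ a := by linarith
  rcases le_total 0 y with h | h
  · exact ⟨Gc_anti ha ⟨h, h2⟩ ⟨ha0, le_rfl⟩ h2, Gc_anti ha ⟨le_rfl, ha0⟩ ⟨h, h2⟩ h⟩
  · rw [← Gc_neg y]
    exact ⟨Gc_anti ha ⟨by linarith, by linarith⟩ ⟨ha0, le_rfl⟩ (by linarith),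
      Gc_anti ha ⟨le_rfl, ha0⟩ ⟨by linarith, by linarith⟩ (by linarith)⟩

theorem gg_var {a y y' : ℝ} (ha : a < 1) (h1 : -a ≤ y) (h : y ≤ y') (h2 : y' ≤ a) :
    |Gc y' - Gc y| ≤ gg y' - gg y := by
  have hy := Gc_le ha h1 (h.trans h2)
  have hy' := Gc_le ha (h1.trans h) h2
  unfold gg
  by_cases hs : 0 ≤ y
  · have hs' : 0 ≤ y' := hs.trans h
    rw [if_pos hs, if_pos hs']
    have := Gc_anti ha ⟨hs, h.trans h2⟩ ⟨hs', h2⟩ h
    rw [abs_le]
    constructor <;> linarith
  · by_cases hs' : 0 ≤ y'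
    · rw [if_neg hs, if_pos hs', abs_le]
      constructor <;> linarith [hy.2, hy'.2]
    · rw [if_neg hs, if_neg hs']
      push Not at hs hs'
      have m1 : -y' ∈ Set.Icc 0 a := ⟨by linarith, by linarith⟩
      have m2 : -y ∈ Set.Icc 0 a := ⟨by linarith, by linarith⟩
      have := Gc_anti ha m1 m2 (by linarith)
      rw [Gc_neg, Gc_neg] at this
      rw [abs_le]
      constructor <;> linarith

theorem gg_le {a y : ℝ} (ha : a < 1) (h1 : -a ≤ y) (h2 : y ≤ a) : |gg y| ≤ Gc 0 - Gc a := by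
  have hy := Gc_le ha h1 h2
  unfold gg
  split_ifs
  · rw [abs_le]
    constructor <;> linarith
  · rw [abs_le]
    constructor <;> linarith

/-! ### Trigonometric sums -/

/-- the Dirichlet type kernel -/
noncomputable def FD (p : ℕ) (t : ℝ) : ℝ := ∑ j ∈ range (2 * p), Real.cos (((j : ℝ) - p + 1) * t)

theorem FD_mul (p : ℕ) (t : ℝ) :
    Real.sin (t / 2) * FD p t = Real.sin (p * t) * Real.cos (t / 2) := by
  have h1 : ∀ n : ℕ, 2 * Real.sin (t / 2) * ∑ j ∈ range n, Real.cos (((j : ℝ) - p + 1) * t) =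
      Real.sin (((n : ℝ) - p + 1 / 2) * t) - Real.sin ((-(p : ℝ) + 1 / 2) * t) := by
    intro n
    induction n with
    | zero => simp
    | succ n ih =>
      rw [Finset.sum_range_succ, mul_add, ih]
      have e1 : (((n + 1 : ℕ) : ℝ) - p + 1 / 2) * t = ((n : ℝ) - p + 1) * t + t / 2 := by
        push_cast; ring
      have e2 : ((n : ℝ) - p + 1 / 2) * t = ((n : ℝ) - p + 1) * t - t / 2 := by ring
      rw [e1, e2, Real.sin_add, Real.sin_sub]
      ring
  have h2 := h1 (2 * p)
  have e1 : (((2 * p : ℕ) : ℝ) - p + 1 / 2) * t = p * t + t / 2 := by push_cast; ring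
  have e2 : (-(p : ℝ) + 1 / 2) * t = -(p * t - t / 2) := by ring
  rw [e1, e2, Real.sin_neg, Real.sin_add, Real.sin_sub] at h2
  unfold FD
  linear_combination h2 / 2

/-- symmetric sums of even functions -/
theorem sum_even {a : ℤ → ℝ} (ha : ∀ j, a (-j) = a j) {p : ℕ} (hp : 1 ≤ p) :
    ∑ j ∈ range (2 * p), a ((j : ℤ) - p + 1) = a 0 + a p + 2 * ∑ j ∈ Ico 1 p, a j := by
  induction p, hp using Nat.le_induction with
  | base => simp [Finset.sum_range_succ]
  | succ p hp ih =>
    have e1 : 2 * (p + 1) = 2 * p + 1 + 1 := by ring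
    rw [e1, Finset.sum_range_succ, Finset.sum_range_succ']
    have e2 : ∑ k ∈ range (2 * p), a (((k + 1 : ℕ) : ℤ) - ((p + 1 : ℕ) : ℤ) + 1) =
        ∑ j ∈ range (2 * p), a ((j : ℤ) - p + 1) := by
      refine Finset.sum_congr rfl fun j _ => ?_
      congr 1
      push_cast
      ring
    rw [e2, ih, Finset.sum_Ico_succ_top hp]
    have e3 : ((0 : ℕ) : ℤ) - ((p + 1 : ℕ) : ℤ) + 1 = -(p : ℤ) := by push_cast; ring
    have e4 : ((2 * p + 1 : ℕ) : ℤ) - ((p + 1 : ℕ) : ℤ) + 1 = ((p + 1 : ℕ) : ℤ) := by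
      push_cast; ring
    rw [e3, e4, ha]
    ring

theorem FD_neg (p : ℕ) (t : ℝ) : FD p (-t) = FD p t := by
  unfold FD
  refine Finset.sum_congr rfl fun j _ => ?_
  rw [mul_neg, Real.cos_neg]

theorem FD_two_pi (p : ℕ) (t : ℝ) : FD p (2 * Real.pi - t) = FD p (-t) := by
  unfold FD
  refine Finset.sum_congr rfl fun j _ => ?_
  have : ((j : ℝ) - p + 1) * (2 * Real.pi - t) =
      ((j : ℝ) - p + 1) * (-t) + (((j : ℤ) - p + 1 : ℤ) : ℝ) * (2 * Real.pi) := by
    push_cast
    ring
  rw [this, Real.cos_add_int_mul_two_pi]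

/-- the kernel in terms of `Gc` -/
theorem FD_Gc (p : ℕ) {y : ℝ} (h1 : -1 < y) (h2 : y < 1) :
    y * FD p (2 * Real.pi * y) = Real.sin (2 * Real.pi * p * y) * Gc y := by
  by_cases hy : y = 0
  · subst hy
    simp
  · have hs : Real.sin (Real.pi * y) ≠ 0 := by
      rcases lt_or_gt_of_ne hy with h | h
      · have := sin_pos_of (y := -y) (by linarith) (by linarith)
        rw [mul_neg, Real.sin_neg] at this
        linarith
      · exact (sin_pos_of h h2).ne'
    have h3 := FD_mul p (2 * Real.pi * y)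
    have e1 : 2 * Real.pi * y / 2 = Real.pi * y := by ring
    have e2 : (p : ℝ) * (2 * Real.pi * y) = 2 * Real.pi * p * y := by ring
    rw [e1, e2] at h3
    rw [Gc_eq hy, ← mul_div_assoc, eq_div_iff hs]
    linear_combination y * h3

/-! ### Reflection -/

/-- the angle `2 π X` -/
noncomputable def th (N k : ℕ) : ℝ := Real.pi * (2 * k + 1) / N

/-- the Gaussian weight -/
noncomputable def Ek (N p : ℕ) (k : ℕ) : ℂ := rt N ^ (2 * (p : ℤ) * ((k : ℤ) * (k + 1)))

theorem Ek_norm (N p k : ℕ) : ‖Ek N p k‖ = 1 := by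
  unfold Ek
  rw [norm_zpow, rt_norm, one_zpow]

theorem rt_th {N : ℕ} (hN : 1 ≤ N) (k : ℕ) (y : ℤ) : rt N ^ (y * (2 * (k : ℤ) + 1)) =
    (Real.cos (y * th N k) : ℂ) + (Real.sin (y * th N k) : ℂ) * I := by
  have hN0 : (N : ℂ) ≠ 0 := by exact_mod_cast (by omega : N ≠ 0)
  rw [rt_zpow]
  have : (Real.pi * I * ((y * (2 * (k : ℤ) + 1) : ℤ) : ℂ) / N : ℂ) =
      ((y * th N k : ℝ) : ℂ) * I := by
    unfold th
    push_cast
    field_simp
  rw [this, Complex.exp_mul_I, Complex.ofReal_cos, Complex.ofReal_sin]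

theorem Ek_refl {N : ℕ} (hN : 1 ≤ N) (p : ℕ) {k : ℕ} (hk : k < N) : Ek N p (N - 1 - k) = Ek N p k := by
  unfold Ek
  have h1 : ((N - 1 - k : ℕ) : ℤ) = N - 1 - k := by omega
  rw [h1]
  have h2 : 2 * (p : ℤ) * (((N : ℤ) - 1 - k) * ((N : ℤ) - 1 - k + 1)) =
      2 * (p : ℤ) * ((k : ℤ) * (k + 1)) + 2 * N * (p * (N - 2 * k - 1)) := by ring
  rw [h2, zpow_add₀ (rt_ne N), rt_pow hN, mul_one]

theorem th_refl {N : ℕ} (hN : 1 ≤ N) {k : ℕ} (hk : k < N) :
    th N (N - 1 - k) = 2 * Real.pi - th N k := by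
  have hN0 : (N : ℝ) ≠ 0 := by exact_mod_cast (by omega : N ≠ 0)
  unfold th
  have h1 : ((N - 1 - k : ℕ) : ℝ) = N - 1 - k := by
    rw [Nat.cast_sub (by omega), Nat.cast_sub (by omega)]
    simp
  rw [h1]
  field_simp
  ring

theorem sum_anti {N : ℕ} {f : ℕ → ℂ} (hf : ∀ k < N, f (N - 1 - k) = -f k) :
    ∑ k ∈ range N, f k = 0 := by
  have h1 := Finset.sum_range_reflect f N
  have h2 : ∑ k ∈ range N, f (N - 1 - k) = -∑ k ∈ range N, f k := by
    rw [← Finset.sum_neg_distrib]
    exact Finset.sum_congr rfl fun k hk => hf k (Finset.mem_range.1 hk)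
  rw [h2] at h1
  have h3 : (2 : ℂ) * ∑ k ∈ range N, f k = 0 := by linear_combination -h1
  exact (mul_eq_zero.1 h3).resolve_left two_ne_zero

theorem cos_refl (y : ℤ) (t : ℝ) : Real.cos (y * (2 * Real.pi - t)) = Real.cos (y * t) := by
  have : (y : ℝ) * (2 * Real.pi - t) = (y : ℝ) * (2 * Real.pi) - y * t := by ring
  rw [this, Real.cos_int_mul_two_pi_sub]

theorem sin_refl (y : ℤ) (t : ℝ) : Real.sin (y * (2 * Real.pi - t)) = -Real.sin (y * t) := by
  have : (y : ℝ) * (2 * Real.pi - t) = (y : ℝ) * (2 * Real.pi) - y * t := by ring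
  rw [this, Real.sin_int_mul_two_pi_sub]

theorem GZ_cos {N : ℕ} (hN : 1 ≤ N) (p : ℕ) (y : ℤ) :
    GZ N p y = ∑ k ∈ range N, Ek N p k * (Real.cos (y * th N k) : ℂ) := by
  have h1 : ∑ k ∈ range N, Ek N p k * (Real.sin (y * th N k) : ℂ) = 0 := by
    apply sum_anti
    intro k hk
    rw [Ek_refl hN p hk, th_refl hN hk, sin_refl]
    push_cast
    ring
  have h2 : GZ N p y = ∑ k ∈ range N, Ek N p k * (Real.cos (y * th N k) : ℂ) +
      (∑ k ∈ range N, Ek N p k * (Real.sin (y * th N k) : ℂ)) * I := by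
    rw [Finset.sum_mul, ← Finset.sum_add_distrib, GZ_eq]
    refine Finset.sum_congr rfl fun k _ => ?_
    unfold tm Ek
    rw [zpow_add₀ (rt_ne N), rt_th hN]
    ring
  rw [h2, h1, zero_mul, add_zero]

theorem AA_sin {N : ℕ} (hN : 1 ≤ N) (p j : ℕ) :
    AA N p j = I * N * ∑ k ∈ range N, Ek N p k *
      (((1 - th N k / Real.pi) * Real.sin (j * th N k) : ℝ) : ℂ) := by
  have hN0 : (N : ℝ) ≠ 0 := by exact_mod_cast (by omega : N ≠ 0)
  have hpi := Real.pi_ne_zero
  have h1 : ∑ k ∈ range N, Ek N p k *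
      (((1 - th N k / Real.pi) * Real.cos (j * th N k) : ℝ) : ℂ) = 0 := by
    apply sum_anti
    intro k hk
    have e1 := cos_refl j (th N k)
    simp only [Int.cast_natCast] at e1
    rw [Ek_refl hN p hk, th_refl hN hk, e1]
    have e2 : 1 - (2 * Real.pi - th N k) / Real.pi = -(1 - th N k / Real.pi) := by
      field_simp
      ring
    rw [e2]
    push_cast
    ring
  have h2 : AA N p j = N * (∑ k ∈ range N, Ek N p k *
      (((1 - th N k / Real.pi) * Real.cos (j * th N k) : ℝ) : ℂ)) +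
      I * N * ∑ k ∈ range N, Ek N p k *
      (((1 - th N k / Real.pi) * Real.sin (j * th N k) : ℝ) : ℂ) := by
    rw [Finset.mul_sum, Finset.mul_sum, ← Finset.sum_add_distrib]
    unfold AA
    refine Finset.sum_congr rfl fun k _ => ?_
    have e1 := rt_th hN k j
    simp only [Int.cast_natCast] at e1
    have e2 : rt N ^ (2 * p * (k * (k + 1)) + j * (2 * k + 1)) =
        Ek N p k * rt N ^ ((j : ℤ) * (2 * (k : ℤ) + 1)) := by
      unfold Ek
      rw [← zpow_add₀ (rt_ne N), ← zpow_natCast]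
      congr 1
    rw [e2, e1]
    have e3 : ((N : ℂ) - 1 - 2 * k) = N * ((1 - th N k / Real.pi : ℝ) : ℂ) := by
      have : (N : ℝ) - 1 - 2 * k = N * (1 - th N k / Real.pi) := by
        unfold th
        field_simp
        ring
      exact_mod_cast congrArg (fun x : ℝ => (x : ℂ)) this
    rw [e3]
    push_cast
    ring
  rw [h2, h1, mul_zero, zero_add]

/-! ### Abel summation -/

theorem abel {f : ℕ → ℂ} (hf : ∀ k, ‖f k‖ ≤ 1) (V : ℕ → ℝ) (n : ℕ) :
    ‖∑ k ∈ range (n + 1), (V k : ℂ) * (f (k + 1) - f k)‖ ≤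
      |V n| + |V 0| + ∑ k ∈ range n, |V (k + 1) - V k| := by
  have h1 : ∑ k ∈ range (n + 1), (V k : ℂ) * (f (k + 1) - f k) =
      V n * f (n + 1) - V 0 * f 0 - ∑ k ∈ range n, ((V (k + 1) - V k : ℝ) : ℂ) * f (k + 1) := by
    induction n with
    | zero => simp; ring
    | succ n ih =>
      rw [Finset.sum_range_succ, ih, Finset.sum_range_succ]
      push_cast
      ring
  rw [h1]
  have h2 : ∀ (a : ℝ) (k : ℕ), ‖(a : ℂ) * f k‖ ≤ |a| := by
    intro a k
    rw [norm_mul, Complex.norm_real, Real.norm_eq_abs]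
    calc |a| * ‖f k‖ ≤ |a| * 1 := mul_le_mul_of_nonneg_left (hf k) (abs_nonneg _)
      _ = |a| := mul_one _
  refine (norm_sub_le _ _).trans (add_le_add ((norm_sub_le _ _).trans
    (add_le_add (h2 _ _) (h2 _ _))) ?_)
  exact (norm_sum_le _ _).trans (Finset.sum_le_sum fun k _ => h2 _ _)

/-- the telescoping weights -/
noncomputable def Fk (N p : ℕ) (k : ℕ) : ℂ := rt N ^ (2 * (p : ℤ) * ((k : ℤ) * k))

theorem Fk_norm (N p k : ℕ) : ‖Fk N p k‖ = 1 := by
  unfold Fk
  rw [norm_zpow, rt_norm, one_zpow]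

theorem Fk_diff {N : ℕ} (hN : 1 ≤ N) (p k : ℕ) : Fk N p (k + 1) - Fk N p k =
    2 * I * rt N ^ (p : ℤ) * (Ek N p k * (Real.sin (p * th N k) : ℂ)) := by
  have h1 := rt_th hN k p
  have h2 := rt_th hN k (-p)
  have e1 : Fk N p (k + 1) = Ek N p k * rt N ^ (p : ℤ) * rt N ^ ((p : ℤ) * (2 * (k : ℤ) + 1)) := by
    unfold Fk Ek
    rw [← zpow_add₀ (rt_ne N), ← zpow_add₀ (rt_ne N)]
    congr 1
    push_cast
    ring
  have e2 : Fk N p k = Ek N p k * rt N ^ (p : ℤ) * rt N ^ (-(p : ℤ) * (2 * (k : ℤ) + 1)) := by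
    unfold Fk Ek
    rw [← zpow_add₀ (rt_ne N), ← zpow_add₀ (rt_ne N)]
    congr 1
    ring
  rw [e1, e2, h1, h2]
  push_cast
  rw [neg_mul, Complex.cos_neg, Complex.sin_neg]
  ring

/-- the main bound -/
theorem abel_main {N : ℕ} (hN : 1 ≤ N) (p : ℕ) (V : ℕ → ℝ) {B : ℝ}
    (hB : |V (N - 1)| + |V 0| + ∑ k ∈ range (N - 1), |V (k + 1) - V k| ≤ 2 * B) :
    ‖∑ k ∈ range N, Ek N p k * ((V k * Real.sin (p * th N k) : ℝ) : ℂ)‖ ≤ B := by
  have h1 := abel (f := Fk N p) (fun k => (Fk_norm N p k).le) V (N - 1)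
  rw [Nat.sub_add_cancel hN] at h1
  have h2 : ∑ k ∈ range N, (V k : ℂ) * (Fk N p (k + 1) - Fk N p k) =
      2 * I * rt N ^ (p : ℤ) * ∑ k ∈ range N, Ek N p k * ((V k * Real.sin (p * th N k) : ℝ) : ℂ) := by
    rw [Finset.mul_sum]
    refine Finset.sum_congr rfl fun k _ => ?_
    rw [Fk_diff hN]
    push_cast
    ring
  rw [h2, norm_mul, norm_mul, norm_mul, norm_zpow, rt_norm, one_zpow, Complex.norm_I] at h1
  simp only [Complex.norm_ofNat, mul_one] at h1
  linarith

/-! ### The kernel identity -/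

theorem kernel {p m : ℕ} (hp : 1 ≤ p) {X : ℝ} (h0 : 0 < X) (h1 : X < 1) (hm : 1 ≤ m)
    (hmp : m < p) :
    (1 - 2 * X) * ∑ j ∈ Ico 1 p, Real.sin (Real.pi * m * j / p) * Real.sin (j * (2 * Real.pi * X)) -
      ((p : ℝ) - m) / (2 * p) * ∑ j ∈ range (2 * p), Real.cos (Real.pi * m * ((j : ℝ) - p + 1) / p) *
        Real.cos (((j : ℝ) - p + 1) * (2 * Real.pi * X)) =
      (-1) ^ m / 2 * (Gc (1 - m / (2 * p) - X) - Gc (X - m / (2 * p))) *
        Real.sin (p * (2 * Real.pi * X)) := by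
  have hp0 : (0 : ℝ) < p := by exact_mod_cast hp
  have hm0 : (0 : ℝ) < m := by exact_mod_cast hm
  have hmp' : (m : ℝ) < p := by exact_mod_cast hmp
  set Xm : ℝ := m / (2 * p) with hXm
  have hXm0 : 0 < Xm := by positivity
  have hXm1 : Xm < 1 / 2 := by
    rw [hXm, div_lt_div_iff₀ (by positivity) (by norm_num)]
    linarith
  have hang : Real.pi * m / p = 2 * Real.pi * Xm := by
    rw [hXm]
    field_simp
  -- the sines as a symmetric sum
  have e1 : ∑ j ∈ Ico 1 p, Real.sin (Real.pi * m * j / p) * Real.sin (j * (2 * Real.pi * X)) =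
      (FD p (2 * Real.pi * (X - Xm)) - FD p (2 * Real.pi * (X + Xm))) / 4 := by
    let a : ℤ → ℝ := fun j => Real.sin (Real.pi * m * j / p) * Real.sin (j * (2 * Real.pi * X))
    have ha : ∀ j, a (-j) = a j := by
      intro j
      simp only [a]
      push_cast
      have e2 : Real.pi * m * -(j : ℝ) / p = -(Real.pi * m * j / p) := by ring
      have e3 : -(j : ℝ) * (2 * Real.pi * X) = -(j * (2 * Real.pi * X)) := by ring
      rw [e2, e3, Real.sin_neg, Real.sin_neg]
      ring
    have h2 := sum_even ha hp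
    have h3 : a 0 = 0 := by simp [a]
    have h4 : a p = 0 := by
      simp only [a]
      have : Real.pi * m * ((p : ℤ) : ℝ) / p = m * Real.pi := by
        push_cast
        field_simp
      rw [this, Real.sin_nat_mul_pi, zero_mul]
    rw [h3, h4] at h2
    have h5 : ∑ j ∈ range (2 * p), a ((j : ℤ) - p + 1) =
        (FD p (2 * Real.pi * (X - Xm)) - FD p (2 * Real.pi * (X + Xm))) / 2 := by
      unfold FD
      rw [← Finset.sum_sub_distrib, Finset.sum_div]
      refine Finset.sum_congr rfl fun j _ => ?_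
      simp only [a]
      push_cast
      have e2 : Real.pi * m * ((j : ℝ) - p + 1) / p = ((j : ℝ) - p + 1) * (2 * Real.pi * Xm) := by
        rw [← hang]
        ring
      have e3 : ((j : ℝ) - p + 1) * (2 * Real.pi * (X - Xm)) =
          ((j : ℝ) - p + 1) * (2 * Real.pi * X) - ((j : ℝ) - p + 1) * (2 * Real.pi * Xm) := by ring
      have e4 : ((j : ℝ) - p + 1) * (2 * Real.pi * (X + Xm)) =
          ((j : ℝ) - p + 1) * (2 * Real.pi * X) + ((j : ℝ) - p + 1) * (2 * Real.pi * Xm) := by ring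
      rw [e2, e3, e4, Real.cos_sub, Real.cos_add]
      ring
    have h6 : ∑ j ∈ Ico 1 p, a j =
        ∑ j ∈ Ico 1 p, Real.sin (Real.pi * m * j / p) * Real.sin (j * (2 * Real.pi * X)) := by
      refine Finset.sum_congr rfl fun j _ => ?_
      simp [a]
    rw [← h6]
    linarith
  have e5 : ∑ j ∈ range (2 * p), Real.cos (Real.pi * m * ((j : ℝ) - p + 1) / p) *
      Real.cos (((j : ℝ) - p + 1) * (2 * Real.pi * X)) =
      (FD p (2 * Real.pi * (X - Xm)) + FD p (2 * Real.pi * (X + Xm))) / 2 := by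
    unfold FD
    rw [← Finset.sum_add_distrib, Finset.sum_div]
    refine Finset.sum_congr rfl fun j _ => ?_
    have e2 : Real.pi * m * ((j : ℝ) - p + 1) / p = ((j : ℝ) - p + 1) * (2 * Real.pi * Xm) := by
      rw [← hang]
      ring
    have e3 : ((j : ℝ) - p + 1) * (2 * Real.pi * (X - Xm)) =
        ((j : ℝ) - p + 1) * (2 * Real.pi * X) - ((j : ℝ) - p + 1) * (2 * Real.pi * Xm) := by ring
    have e4 : ((j : ℝ) - p + 1) * (2 * Real.pi * (X + Xm)) =
        ((j : ℝ) - p + 1) * (2 * Real.pi * X) + ((j : ℝ) - p + 1) * (2 * Real.pi * Xm) := by ring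
    rw [e2, e3, e4, Real.cos_sub, Real.cos_add]
    ring
  have hw : ((p : ℝ) - m) / (2 * p) = (1 - 2 * Xm) / 2 := by
    rw [hXm]
    field_simp
  have f1 := FD_Gc p (y := X - Xm) (by linarith) (by linarith)
  have f2 := FD_Gc p (y := 1 - Xm - X) (by linarith) (by linarith)
  have g1 : FD p (2 * Real.pi * (1 - Xm - X)) = FD p (2 * Real.pi * (X + Xm)) := by
    have : 2 * Real.pi * (1 - Xm - X) = 2 * Real.pi - 2 * Real.pi * (X + Xm) := by ring
    rw [this, FD_two_pi, FD_neg]
  have hsm : ∀ t : ℝ, Real.sin (t - m * Real.pi) = (-1) ^ m * Real.sin t := fun t =>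
    Real.sin_sub_nat_mul_pi t m
  have g2 : Real.sin (2 * Real.pi * p * (X - Xm)) = (-1) ^ m * Real.sin (p * (2 * Real.pi * X)) := by
    rw [← hsm]
    congr 1
    rw [hXm]
    field_simp
  have g3 : Real.sin (2 * Real.pi * p * (1 - Xm - X)) =
      -((-1) ^ m * Real.sin (p * (2 * Real.pi * X))) := by
    have e6 : 2 * Real.pi * p * (1 - Xm - X) =
        (p : ℝ) * (2 * Real.pi) - (p * (2 * Real.pi * X) + m * Real.pi) := by
      rw [hXm]
      field_simp
      ring
    rw [e6, Real.sin_nat_mul_two_pi_sub, Real.sin_add_nat_mul_pi]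
  rw [g1, g3] at f2
  rw [g2] at f1
  rw [e1, e5, hw]
  linear_combination (-1 / 2) * f1 - (1 / 2) * f2

/-- variation of the coefficients -/
theorem var_Gc {a : ℝ} (ha : a < 1) {n : ℕ} {y : ℕ → ℝ} (hy : ∀ k ≤ n, -a ≤ y k ∧ y k ≤ a)
    (hmono : ∀ k < n, y k ≤ y (k + 1)) :
    ∑ k ∈ range n, |Gc (y (k + 1)) - Gc (y k)| ≤ 2 * (Gc 0 - Gc a) := by
  have h1 : ∑ k ∈ range n, |Gc (y (k + 1)) - Gc (y k)| ≤
      ∑ k ∈ range n, (gg (y (k + 1)) - gg (y k)) := by
    refine Finset.sum_le_sum fun k hk => ?_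
    have hk' := Finset.mem_range.1 hk
    exact gg_var ha (hy k hk'.le).1 (hmono k hk') (hy (k + 1) hk').2
  rw [Finset.sum_range_sub (fun k => gg (y k))] at h1
  have h2 := gg_le ha (hy n le_rfl).1 (hy n le_rfl).2
  have h3 := gg_le ha (hy 0 (Nat.zero_le _)).1 (hy 0 (Nat.zero_le _)).2
  rw [abs_le] at h2 h3
  linarith [h2.2, h3.1]

theorem var_Gc' {a : ℝ} (ha : a < 1) {n : ℕ} {y : ℕ → ℝ} (hy : ∀ k ≤ n, -a ≤ y k ∧ y k ≤ a)
    (hmono : ∀ k < n, y (k + 1) ≤ y k) :
    ∑ k ∈ range n, |Gc (y (k + 1)) - Gc (y k)| ≤ 2 * (Gc 0 - Gc a) := by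
  have h1 := var_Gc ha (y := fun k => -y k) (n := n) (fun k hk => by
    have := hy k hk
    constructor <;> linarith [this.1, this.2]) fun k hk => by
      have := hmono k hk
      linarith
  simpa only [Gc_neg] using h1

/-- **ABL.** -/
theorem abl : S_abl := by
  intro p hp
  have hp0 : (0 : ℝ) < p := by exact_mod_cast (by omega : 0 < p)
  set a : ℝ := 1 - 1 / (2 * p) with ha
  have ha1 : a < 1 := by
    have : 0 < 1 / (2 * (p : ℝ)) := by positivity
    linarith
  set M : ℝ := |Gc 0| + |Gc a| with hM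
  have hM0 : 0 ≤ M := by positivity
  refine ⟨max 2 (2 * M), fun N hN => ⟨?_, fun m hm hmp => ?_⟩⟩
  · rw [AA_sin hN]
    have hN0 : (0 : ℝ) < N := by exact_mod_cast hN
    have hV : ∀ k : ℕ, th N k / Real.pi = (2 * k + 1) / N := by
      intro k
      unfold th
      field_simp
    have h1 := abel_main hN p (fun k => 1 - th N k / Real.pi) (B := 2) (by
      have h2 : ∀ k ∈ range (N - 1), |(1 - th N (k + 1) / Real.pi) - (1 - th N k / Real.pi)| =
          2 / N := by
        intro k _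
        rw [hV, hV]
        have : 1 - (2 * ((k + 1 : ℕ) : ℝ) + 1) / N - (1 - (2 * (k : ℝ) + 1) / N) = -(2 / N) := by
          push_cast
          field_simp
          ring
        rw [this, abs_neg, abs_of_pos (by positivity)]
      rw [Finset.sum_congr rfl h2, Finset.sum_const, Finset.card_range, nsmul_eq_mul]
      have h3 : ((N - 1 : ℕ) : ℝ) * (2 / N) ≤ 2 := by
        rw [mul_div_assoc', div_le_iff₀ hN0, Nat.cast_sub hN]
        push_cast
        linarith
      have h4 : ∀ k : ℕ, k < N → |1 - th N k / Real.pi| ≤ 1 := by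
        intro k hk
        rw [hV, abs_le]
        have hk' : (k : ℝ) + 1 ≤ N := by exact_mod_cast hk
        have e1 : (2 * (k : ℝ) + 1) / N ≤ 2 := by
          rw [div_le_iff₀ hN0]
          linarith
        have e2 : 0 ≤ (2 * (k : ℝ) + 1) / N := by positivity
        constructor <;> linarith
      have h5 := h4 (N - 1) (by omega)
      have h6 := h4 0 (by omega)
      linarith)
    rw [norm_mul, norm_mul, Complex.norm_I, Complex.norm_natCast, one_mul]
    calc (N : ℝ) * _ ≤ N * 2 := mul_le_mul_of_nonneg_left h1 hN0.le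
      _ = 2 * N := mul_comm _ _
      _ ≤ max 2 (2 * M) * N := mul_le_mul_of_nonneg_right (le_max_left _ _) hN0.le
  · have hN0 : (0 : ℝ) < N := by exact_mod_cast hN
    have hm0 : (0 : ℝ) < m := by exact_mod_cast hm
    have hmp' : (m : ℝ) + 1 ≤ p := by exact_mod_cast hmp
    set Xm : ℝ := m / (2 * p) with hXm
    let X : ℕ → ℝ := fun k => (2 * k + 1) / (2 * N)
    have hth : ∀ k, th N k = 2 * Real.pi * X k := by
      intro k
      simp only [X]
      unfold th
      field_simp
    have hX0 : ∀ k, 0 < X k := by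
      intro k
      simp only [X]
      positivity
    have hX1 : ∀ k, k < N → X k < 1 := by
      intro k hk
      simp only [X]
      have hk' : (k : ℝ) + 1 ≤ N := by exact_mod_cast hk
      rw [div_lt_one (by positivity)]
      linarith
    let V : ℕ → ℝ := fun k => (-1) ^ m / 2 * (Gc (1 - Xm - X k) - Gc (X k - Xm))
    have hXm0 : 1 / (2 * p) ≤ Xm := by
      rw [hXm]
      gcongr
      exact_mod_cast hm
    have hXm1 : Xm ≤ 1 / 2 - 1 / (2 * p) := by
      rw [hXm]
      have : (m : ℝ) / (2 * p) ≤ (p - 1) / (2 * p) := by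
        gcongr
        linarith
      refine this.trans (le_of_eq ?_)
      field_simp
    have hr1 : ∀ k < N, -a ≤ X k - Xm ∧ X k - Xm ≤ a := by
      intro k hk
      have e1 := hX0 k
      have e2 := hX1 k hk
      constructor <;> linarith
    have hr2 : ∀ k < N, -a ≤ 1 - Xm - X k ∧ 1 - Xm - X k ≤ a := by
      intro k hk
      have e1 := hX0 k
      have e2 := hX1 k hk
      constructor <;> linarith
    have hXs : ∀ k, X k ≤ X (k + 1) := by
      intro k
      simp only [X]
      gcongr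
      push_cast
      linarith
    have hGb : ∀ y, -a ≤ y → y ≤ a → |Gc y| ≤ M := by
      intro y h1 h2
      have h3 := Gc_le ha1 h1 h2
      rw [abs_le]
      have h4 := neg_abs_le (Gc a)
      have h5 := le_abs_self (Gc 0)
      have h6 := abs_nonneg (Gc 0)
      have h7 := abs_nonneg (Gc a)
      constructor <;> linarith [h3.1, h3.2]
    have habs : |((-1 : ℝ)) ^ m / 2| = 1 / 2 := by
      rw [abs_div, abs_pow, abs_neg, abs_one, one_pow]
      norm_num
    have hVb : ∀ k < N, |V k| ≤ M := by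
      intro k hk
      simp only [V]
      rw [abs_mul, habs]
      have e1 := hGb _ (hr1 k hk).1 (hr1 k hk).2
      have e2 := hGb _ (hr2 k hk).1 (hr2 k hk).2
      have e3 := abs_sub (Gc (1 - Xm - X k)) (Gc (X k - Xm))
      linarith
    have hVv : ∑ k ∈ range (N - 1), |V (k + 1) - V k| ≤ 2 * M := by
      have e1 : ∀ k ∈ range (N - 1), |V (k + 1) - V k| ≤
          1 / 2 * (|Gc (1 - Xm - X (k + 1)) - Gc (1 - Xm - X k)| +
            |Gc (X (k + 1) - Xm) - Gc (X k - Xm)|) := by
        intro k _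
        simp only [V]
        rw [← mul_sub, abs_mul, habs]
        have e2 : Gc (1 - Xm - X (k + 1)) - Gc (X (k + 1) - Xm) -
            (Gc (1 - Xm - X k) - Gc (X k - Xm)) =
            (Gc (1 - Xm - X (k + 1)) - Gc (1 - Xm - X k)) -
              (Gc (X (k + 1) - Xm) - Gc (X k - Xm)) := by ring
        rw [e2]
        exact mul_le_mul_of_nonneg_left (abs_sub _ _) (by norm_num)
      refine (Finset.sum_le_sum e1).trans ?_
      rw [← Finset.mul_sum, Finset.sum_add_distrib]
      have e3 := var_Gc ha1 (n := N - 1) (y := fun k => X k - Xm)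
        (fun k hk => hr1 k (by omega)) (fun k _ => by have := hXs k; linarith)
      have e4 := var_Gc' ha1 (n := N - 1) (y := fun k => 1 - Xm - X k)
        (fun k hk => hr2 k (by omega)) (fun k _ => by have := hXs k; linarith)
      have e5 := le_abs_self (Gc 0)
      have e6 := neg_abs_le (Gc a)
      linarith
    have h1 := abel_main hN p V (B := 2 * M) (by
      have e1 := hVb (N - 1) (by omega)
      have e2 := hVb 0 (by omega)
      linarith)
    have h2 : (∑ j ∈ Ico 1 p, (Real.sin (Real.pi * m * j / p) : ℂ) * AA N p j)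
      - Complex.I * N * (((p : ℂ) - m) / (2 * p))
        * ∑ j ∈ range (2 * p), (Real.cos (Real.pi * m * ((j : ℝ) - p + 1) / p) : ℂ)
            * GZ N p ((j : ℤ) - p + 1) =
        I * N * ∑ k ∈ range N, Ek N p k * ((V k * Real.sin (p * th N k) : ℝ) : ℂ) := by
      have e1 : ∑ j ∈ Ico 1 p, (Real.sin (Real.pi * m * j / p) : ℂ) * AA N p j =
          I * N * ∑ k ∈ range N, Ek N p k * (((1 - 2 * X k) * ∑ j ∈ Ico 1 p,
            Real.sin (Real.pi * m * j / p) * Real.sin (j * (2 * Real.pi * X k)) : ℝ) : ℂ) := by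
        have e2 : ∀ j ∈ Ico 1 p, (Real.sin (Real.pi * m * j / p) : ℂ) * AA N p j =
            ∑ k ∈ range N, I * N * (Ek N p k * (((1 - 2 * X k) *
              (Real.sin (Real.pi * m * j / p) * Real.sin (j * (2 * Real.pi * X k))) : ℝ) : ℂ)) := by
          intro j _
          rw [AA_sin hN, ← mul_assoc, mul_comm ((Real.sin (Real.pi * m * j / p) : ℝ) : ℂ) (I * N),
            mul_assoc, Finset.mul_sum, Finset.mul_sum]
          refine Finset.sum_congr rfl fun k _ => ?_
          have e3 : th N k / Real.pi = 2 * X k := by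
            rw [hth]
            field_simp
          rw [e3, hth]
          push_cast
          ring
        rw [Finset.sum_congr rfl e2, Finset.sum_comm, Finset.mul_sum]
        refine Finset.sum_congr rfl fun k _ => ?_
        push_cast
        simp only [Finset.mul_sum]
      have e4 : ∑ j ∈ range (2 * p), (Real.cos (Real.pi * m * ((j : ℝ) - p + 1) / p) : ℂ)
            * GZ N p ((j : ℤ) - p + 1) =
          ∑ k ∈ range N, Ek N p k * ((∑ j ∈ range (2 * p),
            Real.cos (Real.pi * m * ((j : ℝ) - p + 1) / p) *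
              Real.cos (((j : ℝ) - p + 1) * (2 * Real.pi * X k)) : ℝ) : ℂ) := by
        have e2 : ∀ j ∈ range (2 * p), (Real.cos (Real.pi * m * ((j : ℝ) - p + 1) / p) : ℂ)
            * GZ N p ((j : ℤ) - p + 1) = ∑ k ∈ range N, Ek N p k *
              ((Real.cos (Real.pi * m * ((j : ℝ) - p + 1) / p) *
              Real.cos (((j : ℝ) - p + 1) * (2 * Real.pi * X k)) : ℝ) : ℂ) := by
          intro j _
          rw [GZ_cos hN, Finset.mul_sum]
          refine Finset.sum_congr rfl fun k _ => ?_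
          rw [hth]
          push_cast
          ring
        rw [Finset.sum_congr rfl e2, Finset.sum_comm]
        refine Finset.sum_congr rfl fun k _ => ?_
        rw [← Finset.mul_sum]
        congr 1
        push_cast
        rfl
      rw [e1, e4, mul_assoc (I * (N : ℂ)), ← mul_sub, Finset.mul_sum, ← Finset.sum_sub_distrib]
      congr 1
      refine Finset.sum_congr rfl fun k hk => ?_
      have e5 := kernel (p := p) (m := m) (by omega) (hX0 k) (hX1 k (Finset.mem_range.1 hk)) hm hmp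
      have e6 : V k * Real.sin (p * th N k) =
          (1 - 2 * X k) * ∑ j ∈ Ico 1 p, Real.sin (Real.pi * m * j / p) *
              Real.sin (j * (2 * Real.pi * X k)) -
          ((p : ℝ) - m) / (2 * p) * ∑ j ∈ range (2 * p),
            Real.cos (Real.pi * m * ((j : ℝ) - p + 1) / p) *
              Real.cos (((j : ℝ) - p + 1) * (2 * Real.pi * X k)) := by
        rw [e5, hth]
      rw [e6]
      push_cast
      ring
    rw [h2, norm_mul, norm_mul, Complex.norm_I, Complex.norm_natCast, one_mul]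
    calc (N : ℝ) * _ ≤ N * (2 * M) := mul_le_mul_of_nonneg_left h1 hN0.le
      _ = 2 * M * N := mul_comm _ _
      _ ≤ max 2 (2 * M) * N := mul_le_mul_of_nonneg_right (le_max_right _ _) hN0.le

end Pool.Agent.Q64.VC
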